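import Mathlib

set_option autoImplicit false

/-!
# Two nonsingular block graphs joined by an edge may give a singular block graph

`G₁` is the block graph on `8` vertices whose blocks are the edge `{0, 1}` and the triangles
`{1, 2, 3}`, `{2, 4, 5}`, `{3, 6, 7}`; `G₂` is the triangle.
-/

namespace Pool.Agent.Results.MP_025d69_co.SingularJoin

/-- `G[B]` is connected and has no cut-vertex. -/
def NoCutVertex {V : Type} (G : SimpleGraph V) (B : Set V) : Prop :=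
  (G.induce B).Connected ∧ ∀ x ∈ B, (G.induce (B \ {x})).Preconnected

/-- A block: a maximal vertex set inducing a connected subgraph without cut-vertex. -/
def IsBlock {V : Type} (G : SimpleGraph V) (B : Set V) : Prop :=
  NoCutVertex G B ∧ ∀ C : Set V, B ⊆ C → NoCutVertex G C → C = B

/-- A block graph: a connected graph all of whose blocks are complete. -/
def IsBlockGraph {V : Type} (G : SimpleGraph V) : Prop :=
  G.Connected ∧ ∀ B : Set V, IsBlock G B → G.IsClique B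

open Classical in
/-- The real adjacency matrix is invertible. -/
def Nonsingular {V : Type} [Fintype V] (G : SimpleGraph V) : Prop :=
  (G.adjMatrix ℝ).det ≠ 0

/-- The disjoint union of `G₁` and `G₂` plus the edge `v₁ v₂`. -/
def joinByEdge {V₁ V₂ : Type} (G₁ : SimpleGraph V₁) (G₂ : SimpleGraph V₂) (v₁ : V₁) (v₂ : V₂) :
    SimpleGraph (V₁ ⊕ V₂) :=
  (G₁ ⊕g G₂) ⊔ SimpleGraph.edge (Sum.inl v₁) (Sum.inr v₂)

/-- A separation excludes `x` and `y` from a common set without cut-vertex. -/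
theorem sep {V : Type} {G : SimpleGraph V} {B U : Set V} {x y c : V}
    (hU : ∀ p ∈ U, ∀ q, G.Adj p q → q ∈ U ∨ q = c) (hx : x ∈ U) (hy : y ∉ U) (hxc : x ≠ c)
    (hyc : y ≠ c) (hB : NoCutVertex G B) (hxB : x ∈ B) (hyB : y ∈ B) : False := by
  have main : ∀ C : Set V, c ∉ C → x ∈ C → y ∈ C → (G.induce C).Preconnected → False := by
    intro C hc hxC hyC hpre
    obtain ⟨w⟩ := hpre ⟨x, hxC⟩ ⟨y, hyC⟩
    have : ∀ (a b : C), (G.induce C).Walk a b → (a : V) ∈ U → (b : V) ∈ U := by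
      intro a b w
      induction w with
      | nil => exact id
      | cons h _ ih =>
        intro ha
        apply ih
        rcases hU _ ha _ h with h1 | h1
        · exact h1
        · exact absurd (h1 ▸ Subtype.coe_prop _) hc
    exact hy (this _ _ w hx)
  by_cases hc : c ∈ B
  · exact main (B \ {c}) (fun h => h.2 rfl) ⟨hxB, hxc⟩ ⟨hyB, hyc⟩ (hB.2 c hc)
  · exact main B hc hxB hyB hB.1.preconnected

/-- The edges of `G₁`. -/
def e₁ : List (Fin 8 × Fin 8) :=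
  [(0, 1), (1, 2), (1, 3), (2, 3), (2, 4), (2, 5), (4, 5), (3, 6), (3, 7), (6, 7)]

/-- The block graph on `8` vertices with blocks `{0,1}`, `{1,2,3}`, `{2,4,5}`, `{3,6,7}`. -/
def G₁ : SimpleGraph (Fin 8) where
  Adj i j := (i, j) ∈ e₁ ∨ (j, i) ∈ e₁
  symm := ⟨fun _ _ h => h.symm⟩
  loopless := ⟨by decide⟩

instance : DecidableRel G₁.Adj := fun i j =>
  inferInstanceAs (Decidable ((i, j) ∈ e₁ ∨ (j, i) ∈ e₁))

/-- The triangle. -/
def G₂ : SimpleGraph (Fin 3) := ⊤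

/-- Every two nonadjacent vertices of `G₁` are separated by a cut-vertex. -/
theorem g1_sep (x y : Fin 8) (h1 : x ≠ y) (h2 : ¬ G₁.Adj x y) :
    ∃ (c : Fin 8) (U : Finset (Fin 8)), (∀ p ∈ U, ∀ q, G₁.Adj p q → q ∈ U ∨ q = c) ∧
      x ≠ c ∧ y ≠ c ∧ ((x ∈ U ∧ y ∉ U) ∨ (y ∈ U ∧ x ∉ U)) := by
  have key : ∀ x y : Fin 8, x ≠ y → ¬ G₁.Adj x y →
      ∃ cU ∈ ([(1, {0}), (2, {4, 5}), (3, {6, 7})] : List (Fin 8 × Finset (Fin 8))),
        (∀ p ∈ cU.2, ∀ q, G₁.Adj p q → q ∈ cU.2 ∨ q = cU.1) ∧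
        x ≠ cU.1 ∧ y ≠ cU.1 ∧ ((x ∈ cU.2 ∧ y ∉ cU.2) ∨ (y ∈ cU.2 ∧ x ∉ cU.2)) := by decide
  obtain ⟨cU, _, h⟩ := key x y h1 h2
  exact ⟨cU.1, cU.2, h⟩

theorem g1_block : IsBlockGraph G₁ := by
  refine ⟨by decide, ?_⟩
  intro B hB x hx y hy hxy
  by_contra hadj
  obtain ⟨c, U, hU, hxc, hyc, h | h⟩ := g1_sep x y hxy hadj
  · exact sep (G := G₁) (B := B) (U := (U : Set (Fin 8))) (x := x) (y := y) (c := c)
      (fun p hp q hq => by simpa using hU p (by simpa using hp) q hq) (by simpa using h.1)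
      (by simpa using h.2) hxc hyc hB.1 hx hy
  · exact sep (G := G₁) (B := B) (U := (U : Set (Fin 8))) (x := y) (y := x) (c := c)
      (fun p hp q hq => by simpa using hU p (by simpa using hp) q hq) (by simpa using h.1)
      (by simpa using h.2) hyc hxc hB.1 hy hx

theorem g2_block : IsBlockGraph G₂ := by
  refine ⟨by unfold G₂; exact SimpleGraph.connected_top, ?_⟩
  intro B _ x _ y _ hxy
  exact hxy

theorem adj_cast {V : Type} [Fintype V] [DecidableEq V] (G : SimpleGraph V) [DecidableRel G.Adj] :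
    G.adjMatrix ℝ = (Int.castRingHom ℝ).mapMatrix (G.adjMatrix ℤ) := by
  ext i j
  simp [SimpleGraph.adjMatrix_apply]

theorem nonsing_iff {V : Type} [Fintype V] [DecidableEq V] (G : SimpleGraph V)
    [DecidableRel G.Adj] : Nonsingular G ↔ (G.adjMatrix ℤ).det ≠ 0 := by
  classical
  have h0 : Nonsingular G ↔ (G.adjMatrix ℝ).det ≠ 0 := by
    unfold Nonsingular
    have e1 : ∀ (i₁ i₂ : DecidableEq V) (j₁ j₂ : DecidableRel G.Adj),
        @Matrix.det V i₁ _ ℝ _ (@SimpleGraph.adjMatrix ℝ V G j₁ _ _) =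
          @Matrix.det V i₂ _ ℝ _ (@SimpleGraph.adjMatrix ℝ V G j₂ _ _) := by
      intro i₁ i₂ j₁ j₂
      rw [Subsingleton.elim i₁ i₂, Subsingleton.elim j₁ j₂]
    rw [e1]
  rw [h0, adj_cast, ← RingHom.map_det]
  simp

/-- Three times the inverse of the adjacency matrix of `G₁`. -/
def N₁ : Matrix (Fin 8) (Fin 8) ℤ :=
  !![-6, 3, 3, 3, -3, -3, -3, -3;
     3, 0, 0, 0, 0, 0, 0, 0;
     3, 0, -2, -1, 2, 2, 1, 1;
     3, 0, -1, -2, 1, 1, 2, 2;
     -3, 0, 2, 1, -2, 1, -1, -1;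
     -3, 0, 2, 1, 1, -2, -1, -1;
     -3, 0, 1, 2, -1, -1, -2, 1;
     -3, 0, 1, 2, -1, -1, 1, -2]

theorem g1_nonsing : Nonsingular G₁ := by
  rw [nonsing_iff]
  intro h
  have h1 : G₁.adjMatrix ℤ * N₁ = (3 : ℤ) • (1 : Matrix (Fin 8) (Fin 8) ℤ) := by decide
  have h2 := congrArg Matrix.det h1
  rw [Matrix.det_mul, h, Matrix.det_smul, Matrix.det_one] at h2
  norm_num at h2

instance : DecidableRel G₂.Adj := fun i j => inferInstanceAs (Decidable (i ≠ j))

theorem g2_nonsing : Nonsingular G₂ := by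
  rw [nonsing_iff]
  intro h
  have h1 : G₂.adjMatrix ℤ * !![-1, 1, 1; 1, -1, 1; 1, 1, -1] =
      (2 : ℤ) • (1 : Matrix (Fin 3) (Fin 3) ℤ) := by decide
  have h2 := congrArg Matrix.det h1
  rw [Matrix.det_mul, h, Matrix.det_smul, Matrix.det_one] at h2
  norm_num at h2

/-- Adjacency in the joined graph, as a Boolean. -/
def jb : Fin 8 ⊕ Fin 3 → Fin 8 ⊕ Fin 3 → Bool
  | Sum.inl a, Sum.inl b => decide (G₁.Adj a b)
  | Sum.inl a, Sum.inr b => decide (a = 0 ∧ b = 0)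
  | Sum.inr a, Sum.inl b => decide (a = 0 ∧ b = 0)
  | Sum.inr a, Sum.inr b => decide (G₂.Adj a b)

theorem jb_iff (a b : Fin 8 ⊕ Fin 3) : jb a b = true ↔ (joinByEdge G₁ G₂ 0 0).Adj a b := by
  rcases a with a | a <;> rcases b with b | b <;>
    simp [jb, joinByEdge, SimpleGraph.edge_adj]

instance : DecidableRel (joinByEdge G₁ G₂ 0 0).Adj := fun a b =>
  decidable_of_iff _ (jb_iff a b)

theorem join_sing : ¬ Nonsingular (joinByEdge G₁ G₂ 0 0) := by
  rw [nonsing_iff, not_not]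
  rw [← Matrix.exists_mulVec_eq_zero_iff]
  refine ⟨Sum.elim ![-2, 1, 1, 1, -1, -1, -1, -1] ![-1, 1, 1], ?_, ?_⟩
  · intro h
    have := congrFun h (Sum.inr 0)
    simp at this
  · decide

/-- Joining two nonsingular block graphs by an edge may give a singular graph. -/
theorem result : IsBlockGraph G₁ ∧ Nonsingular G₁ ∧ IsBlockGraph G₂ ∧ Nonsingular G₂ ∧
    ∃ (v₁ : Fin 8) (v₂ : Fin 3), ¬ Nonsingular (joinByEdge G₁ G₂ v₁ v₂) :=
  ⟨g1_block, g1_nonsing, g2_block, g2_nonsing, 0, 0, join_sing⟩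

end Pool.Agent.Results.MP_025d69_co.SingularJoin
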